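import Mathlib
import Pool.Agent.V11180.BG.PartMain

/-!
# MP_cc4361_co, Q2: Bohr sets in `φ₁(A) + φ₂(A) - φ₂(A)` for a cell `A`

For endomorphisms `φ₁`, `φ₂` of an abelian group with images of finite index, not assumed to
commute, every finite cover has a cell `A` such that `φ₁(A) + φ₂(A) - φ₂(A)` contains a Bohr set
whose rank and radius depend only on the number of cells and the two indices.
-/

set_option autoImplicit false

open Finset

namespace Pool.Agent.Results.MP_cc4361_co.PartitionCells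

open Pool.Agent.V11180.BG

universe u

/-- the Bohr set of the characters in `X` and radius `η`; its rank is the number of elements
of `X` -/
def bohr {G : Type u} [AddCommGroup G] (X : Finset (AddChar G Circle)) (η : ℝ) : Set G :=
  {g | ∀ χ ∈ X, ‖((χ g : Circle) : ℂ) - 1‖ < η}

/-- **Q2.** The cells need only cover the group. -/
theorem result (r : ℕ) (hr : 1 ≤ r) (n : ℕ) : ∃ k : ℕ, ∃ η : ℝ, 0 < η ∧
    ∀ (G : Type u) [AddCommGroup G] (φ₁ φ₂ : G →+ G),
      (φ₁.range.index ≠ 0 ∧ φ₁.range.index ≤ n) → (φ₂.range.index ≠ 0 ∧ φ₂.range.index ≤ n) →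
      ∀ A : Fin r → Set G, ⋃ i, A i = Set.univ →
        ∃ i : Fin r, ∃ X : Finset (AddChar G Circle), X.card ≤ k ∧
          ∀ g ∈ bohr X η, ∃ a ∈ A i, ∃ b ∈ A i, ∃ c ∈ A i, g = φ₁ a + φ₂ b - φ₂ c := by
  obtain ⟨K, η, hη, h⟩ := partition.{u} 3 le_rfl r hr n
  refine ⟨K, η, hη, ?_⟩
  intro G _ φ₁ φ₂ h1 h2 A hA
  have hex : ∀ x : G, ∃ i, x ∈ A i := fun x => by
    have : x ∈ ⋃ i, A i := hA ▸ Set.mem_univ x
    exact Set.mem_iUnion.1 this
  choose χ hχ using hex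
  have hneg : (-φ₂).range = φ₂.range := by
    ext y
    constructor
    · rintro ⟨x, rfl⟩
      exact ⟨-x, by rw [map_neg]; rfl⟩
    · rintro ⟨x, rfl⟩
      exact ⟨-x, by show -(φ₂ (-x)) = φ₂ x; rw [map_neg, neg_neg]⟩
  obtain ⟨i, X, hX, hX2⟩ := h G ![φ₁, φ₂, -φ₂] (by
    intro j
    fin_cases j
    · exact h1
    · exact h2
    · show Ix n (-φ₂).range
      rw [hneg]
      exact h2) {1, 2} ⟨1, by simp⟩ (by
    rw [Finset.sum_pair (by decide)]
    show φ₂ + -φ₂ = 0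
    exact add_neg_cancel _) χ
  refine ⟨i, X, hX, fun g hg => ?_⟩
  obtain ⟨a, ha, hag⟩ := hX2 g hg
  refine ⟨a 0, ha 0 ▸ hχ _, a 1, ha 1 ▸ hχ _, a 2, ha 2 ▸ hχ _, ?_⟩
  rw [← hag, Fin.sum_univ_three, sub_eq_add_neg]
  rfl

end Pool.Agent.Results.MP_cc4361_co.PartitionCells
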