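import Mathlib
import Pool.Agent.V11180.BG.Folner

/-!
# MP_cc4361_co, Q1: three non-commuting endomorphisms

If `φ₁ + φ₂ + φ₃ = 0` and the three images have finite index, then `φ₁(A) + φ₂(A) + φ₃(A)` contains
a Bohr set whose rank and radius depend only on the upper Banach density of `A` (by Folner
sequences) and the indices. The endomorphisms need not commute.
-/

set_option autoImplicit false

open Finset

namespace Pool.Agent.Results.MP_cc4361_co.ThreeSummands

open Pool.Agent.V11180.BG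

universe u

/-- the Bohr set of the characters in `X` and radius `η`; its rank is the number of elements
of `X` -/
def bohr {G : Type u} [AddCommGroup G] (X : Finset (AddChar G Circle)) (η : ℝ) : Set G :=
  {g | ∀ χ ∈ X, ‖((χ g : Circle) : ℂ) - 1‖ < η}

/-- **Q1.** `folnerDensity A` is the supremum over Folner sequences of the upper density of `A`
along the sequence. -/
theorem result (δ : ℝ) (hδ : 0 < δ) (n : ℕ) : ∃ k : ℕ, ∃ η : ℝ, 0 < η ∧
    ∀ (G : Type u) [AddCommGroup G] (φ₁ φ₂ φ₃ : G →+ G), φ₁ + φ₂ + φ₃ = 0 →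
      (φ₁.range.index ≠ 0 ∧ φ₁.range.index ≤ n) → (φ₂.range.index ≠ 0 ∧ φ₂.range.index ≤ n) →
      (φ₃.range.index ≠ 0 ∧ φ₃.range.index ≤ n) →
      ∀ A : Set G, δ ≤ folnerDensity A →
        ∃ X : Finset (AddChar G Circle), X.card ≤ k ∧
          ∀ g ∈ bohr X η, ∃ a ∈ A, ∃ b ∈ A, ∃ c ∈ A, g = φ₁ a + φ₂ b + φ₃ c := by
  obtain ⟨K, η, hη, h⟩ := density.{u} 2 δ hδ n
  refine ⟨K, η, hη, ?_⟩
  intro G _ φ₁ φ₂ φ₃ hφ h1 h2 h3 A hA
  obtain ⟨X, hX, hX2⟩ := h G ![φ₁, φ₂, φ₃] (by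
    rw [Fin.sum_univ_three]
    exact hφ) 0 1 2 (by decide) (by decide) (by decide) (by
    rintro q (rfl | rfl | rfl)
    · exact h1
    · exact h2
    · exact h3) A (folnerDensity_le hδ hA)
  refine ⟨X, hX, fun g hg => ?_⟩
  obtain ⟨a, ha, hag⟩ := hX2 g hg
  refine ⟨a 0, ha 0, a 1, ha 1, a 2, ha 2, ?_⟩
  rw [← hag, Fin.sum_univ_three]
  rfl

end Pool.Agent.Results.MP_cc4361_co.ThreeSummands
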